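import Pool.Agent.Q168.SC.Defs

/-!
# A sequence of moves and self-crossing changes on two strands

The diagram `D0` is the pure virtual braid `x y y x y⁻¹ x⁻¹ x⁻¹ y⁻¹`, where in `x` the first strand
passes over the second strand and in `y` the second one over the first one.
-/

set_option autoImplicit false

namespace Q168.SC

variable {n : ℕ}

/-- the class of a diagram in `vSL_n^{sc}` -/
def cls (D : Diagram n) : VSLsc n := Quot.mk _ D

theorem cls_move {D D' : Diagram n} (h : Move D D') : cls D = cls D' := Quot.sound (Or.inl h)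

theorem cls_sc {D D' : Diagram n} (h : SelfCrossingChange D D') : cls D = cls D' :=
  Quot.sound (Or.inr h)

/-- diagram number 0 of the sequence -/
def D0 : Diagram 2 := ⟨![[⟨0, true, true⟩, ⟨1, false, true⟩, ⟨2, false, true⟩, ⟨3, true, true⟩, ⟨4, false, false⟩, ⟨5, true, false⟩, ⟨6, true, false⟩, ⟨7, false, false⟩],
    [⟨0, false, true⟩, ⟨1, true, true⟩, ⟨2, true, true⟩, ⟨3, false, true⟩, ⟨4, true, false⟩, ⟨5, false, false⟩, ⟨6, false, false⟩, ⟨7, true, false⟩]], by decide, by decide⟩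

/-- diagram number 1 of the sequence -/
def D1 : Diagram 2 := ⟨![[⟨0, true, true⟩, ⟨1, false, true⟩, ⟨2, false, true⟩, ⟨3, true, true⟩, ⟨4, false, false⟩, ⟨5, true, false⟩, ⟨6, true, false⟩, ⟨7, false, false⟩],
    [⟨0, false, true⟩, ⟨8, true, false⟩, ⟨9, true, true⟩, ⟨1, true, true⟩, ⟨8, false, false⟩, ⟨9, false, true⟩, ⟨2, true, true⟩, ⟨3, false, true⟩, ⟨4, true, false⟩, ⟨5, false, false⟩, ⟨6, false, false⟩, ⟨7, true, false⟩]], by decide, by decide⟩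

/-- diagram number 2 of the sequence -/
def D2 : Diagram 2 := ⟨![[⟨0, true, true⟩, ⟨2, false, true⟩, ⟨1, false, true⟩, ⟨3, true, true⟩, ⟨4, false, false⟩, ⟨5, true, false⟩, ⟨6, true, false⟩, ⟨7, false, false⟩],
    [⟨0, false, true⟩, ⟨8, true, false⟩, ⟨1, true, true⟩, ⟨9, true, true⟩, ⟨8, false, false⟩, ⟨2, true, true⟩, ⟨9, false, true⟩, ⟨3, false, true⟩, ⟨4, true, false⟩, ⟨5, false, false⟩, ⟨6, false, false⟩, ⟨7, true, false⟩]], by decide, by decide⟩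

/-- diagram number 3 of the sequence -/
def D3 : Diagram 2 := ⟨![[⟨0, true, true⟩, ⟨2, false, true⟩, ⟨1, false, true⟩, ⟨3, true, true⟩, ⟨4, false, false⟩, ⟨5, true, false⟩, ⟨6, true, false⟩, ⟨7, false, false⟩],
    [⟨0, false, true⟩, ⟨8, false, true⟩, ⟨1, true, true⟩, ⟨9, true, true⟩, ⟨8, true, true⟩, ⟨2, true, true⟩, ⟨9, false, true⟩, ⟨3, false, true⟩, ⟨4, true, false⟩, ⟨5, false, false⟩, ⟨6, false, false⟩, ⟨7, true, false⟩]], by decide, by decide⟩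

/-- diagram number 4 of the sequence -/
def D4 : Diagram 2 := ⟨![[⟨2, false, true⟩, ⟨0, true, true⟩, ⟨1, false, true⟩, ⟨3, true, true⟩, ⟨4, false, false⟩, ⟨5, true, false⟩, ⟨6, true, false⟩, ⟨7, false, false⟩],
    [⟨8, false, true⟩, ⟨0, false, true⟩, ⟨1, true, true⟩, ⟨9, true, true⟩, ⟨2, true, true⟩, ⟨8, true, true⟩, ⟨9, false, true⟩, ⟨3, false, true⟩, ⟨4, true, false⟩, ⟨5, false, false⟩, ⟨6, false, false⟩, ⟨7, true, false⟩]], by decide, by decide⟩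

/-- diagram number 5 of the sequence -/
def D5 : Diagram 2 := ⟨![[⟨2, false, true⟩, ⟨0, true, true⟩, ⟨3, true, true⟩, ⟨1, false, true⟩, ⟨4, false, false⟩, ⟨5, true, false⟩, ⟨6, true, false⟩, ⟨7, false, false⟩],
    [⟨8, false, true⟩, ⟨0, false, true⟩, ⟨9, true, true⟩, ⟨1, true, true⟩, ⟨2, true, true⟩, ⟨8, true, true⟩, ⟨3, false, true⟩, ⟨9, false, true⟩, ⟨4, true, false⟩, ⟨5, false, false⟩, ⟨6, false, false⟩, ⟨7, true, false⟩]], by decide, by decide⟩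

/-- diagram number 6 of the sequence -/
def D6 : Diagram 2 := ⟨![[⟨2, false, true⟩, ⟨3, true, true⟩, ⟨0, true, true⟩, ⟨1, false, true⟩, ⟨4, false, false⟩, ⟨5, true, false⟩, ⟨6, true, false⟩, ⟨7, false, false⟩],
    [⟨0, false, true⟩, ⟨8, false, true⟩, ⟨9, true, true⟩, ⟨1, true, true⟩, ⟨2, true, true⟩, ⟨3, false, true⟩, ⟨8, true, true⟩, ⟨9, false, true⟩, ⟨4, true, false⟩, ⟨5, false, false⟩, ⟨6, false, false⟩, ⟨7, true, false⟩]], by decide, by decide⟩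

/-- diagram number 7 of the sequence -/
def D7 : Diagram 2 := ⟨![[⟨2, false, true⟩, ⟨3, true, true⟩, ⟨0, true, true⟩, ⟨1, false, true⟩, ⟨4, false, false⟩, ⟨5, true, false⟩, ⟨6, true, false⟩, ⟨7, false, false⟩],
    [⟨0, false, true⟩, ⟨8, true, false⟩, ⟨9, true, true⟩, ⟨1, true, true⟩, ⟨2, true, true⟩, ⟨3, false, true⟩, ⟨8, false, false⟩, ⟨9, false, true⟩, ⟨4, true, false⟩, ⟨5, false, false⟩, ⟨6, false, false⟩, ⟨7, true, false⟩]], by decide, by decide⟩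

/-- diagram number 8 of the sequence -/
def D8 : Diagram 2 := ⟨![[⟨2, false, true⟩, ⟨3, true, true⟩, ⟨0, true, true⟩, ⟨1, false, true⟩, ⟨4, false, false⟩, ⟨5, true, false⟩, ⟨6, true, false⟩, ⟨7, false, false⟩],
    [⟨0, false, true⟩, ⟨1, true, true⟩, ⟨2, true, true⟩, ⟨3, false, true⟩, ⟨4, true, false⟩, ⟨5, false, false⟩, ⟨6, false, false⟩, ⟨7, true, false⟩]], by decide, by decide⟩

/-- diagram number 9 of the sequence -/
def D9 : Diagram 2 := ⟨![[⟨2, false, true⟩, ⟨10, true, false⟩, ⟨11, true, true⟩, ⟨3, true, true⟩, ⟨0, true, true⟩, ⟨1, false, true⟩, ⟨10, false, false⟩, ⟨11, false, true⟩, ⟨4, false, false⟩, ⟨5, true, false⟩, ⟨6, true, false⟩, ⟨7, false, false⟩],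
    [⟨0, false, true⟩, ⟨1, true, true⟩, ⟨2, true, true⟩, ⟨3, false, true⟩, ⟨4, true, false⟩, ⟨5, false, false⟩, ⟨6, false, false⟩, ⟨7, true, false⟩]], by decide, by decide⟩

/-- diagram number 10 of the sequence -/
def D10 : Diagram 2 := ⟨![[⟨10, true, false⟩, ⟨2, false, true⟩, ⟨11, true, true⟩, ⟨3, true, true⟩, ⟨0, true, true⟩, ⟨10, false, false⟩, ⟨1, false, true⟩, ⟨11, false, true⟩, ⟨4, false, false⟩, ⟨5, true, false⟩, ⟨6, true, false⟩, ⟨7, false, false⟩],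
    [⟨0, false, true⟩, ⟨2, true, true⟩, ⟨1, true, true⟩, ⟨3, false, true⟩, ⟨4, true, false⟩, ⟨5, false, false⟩, ⟨6, false, false⟩, ⟨7, true, false⟩]], by decide, by decide⟩

/-- diagram number 11 of the sequence -/
def D11 : Diagram 2 := ⟨![[⟨10, true, false⟩, ⟨2, false, true⟩, ⟨3, true, true⟩, ⟨11, true, true⟩, ⟨0, true, true⟩, ⟨10, false, false⟩, ⟨11, false, true⟩, ⟨1, false, true⟩, ⟨4, false, false⟩, ⟨5, true, false⟩, ⟨6, true, false⟩, ⟨7, false, false⟩],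
    [⟨0, false, true⟩, ⟨2, true, true⟩, ⟨3, false, true⟩, ⟨1, true, true⟩, ⟨4, true, false⟩, ⟨5, false, false⟩, ⟨6, false, false⟩, ⟨7, true, false⟩]], by decide, by decide⟩

/-- diagram number 12 of the sequence -/
def D12 : Diagram 2 := ⟨![[⟨10, false, true⟩, ⟨2, false, true⟩, ⟨3, true, true⟩, ⟨11, true, true⟩, ⟨0, true, true⟩, ⟨10, true, true⟩, ⟨11, false, true⟩, ⟨1, false, true⟩, ⟨4, false, false⟩, ⟨5, true, false⟩, ⟨6, true, false⟩, ⟨7, false, false⟩],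
    [⟨0, false, true⟩, ⟨2, true, true⟩, ⟨3, false, true⟩, ⟨1, true, true⟩, ⟨4, true, false⟩, ⟨5, false, false⟩, ⟨6, false, false⟩, ⟨7, true, false⟩]], by decide, by decide⟩

/-- diagram number 13 of the sequence -/
def D13 : Diagram 2 := ⟨![[⟨2, false, true⟩, ⟨10, false, true⟩, ⟨3, true, true⟩, ⟨11, true, true⟩, ⟨10, true, true⟩, ⟨0, true, true⟩, ⟨11, false, true⟩, ⟨1, false, true⟩, ⟨4, false, false⟩, ⟨5, true, false⟩, ⟨6, true, false⟩, ⟨7, false, false⟩],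
    [⟨2, true, true⟩, ⟨0, false, true⟩, ⟨3, false, true⟩, ⟨1, true, true⟩, ⟨4, true, false⟩, ⟨5, false, false⟩, ⟨6, false, false⟩, ⟨7, true, false⟩]], by decide, by decide⟩

/-- diagram number 14 of the sequence -/
def D14 : Diagram 2 := ⟨![[⟨2, false, true⟩, ⟨10, false, true⟩, ⟨11, true, true⟩, ⟨3, true, true⟩, ⟨10, true, true⟩, ⟨11, false, true⟩, ⟨0, true, true⟩, ⟨1, false, true⟩, ⟨4, false, false⟩, ⟨5, true, false⟩, ⟨6, true, false⟩, ⟨7, false, false⟩],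
    [⟨2, true, true⟩, ⟨3, false, true⟩, ⟨0, false, true⟩, ⟨1, true, true⟩, ⟨4, true, false⟩, ⟨5, false, false⟩, ⟨6, false, false⟩, ⟨7, true, false⟩]], by decide, by decide⟩

/-- diagram number 15 of the sequence -/
def D15 : Diagram 2 := ⟨![[⟨2, false, true⟩, ⟨10, true, false⟩, ⟨11, true, true⟩, ⟨3, true, true⟩, ⟨10, false, false⟩, ⟨11, false, true⟩, ⟨0, true, true⟩, ⟨1, false, true⟩, ⟨4, false, false⟩, ⟨5, true, false⟩, ⟨6, true, false⟩, ⟨7, false, false⟩],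
    [⟨2, true, true⟩, ⟨3, false, true⟩, ⟨0, false, true⟩, ⟨1, true, true⟩, ⟨4, true, false⟩, ⟨5, false, false⟩, ⟨6, false, false⟩, ⟨7, true, false⟩]], by decide, by decide⟩

/-- diagram number 16 of the sequence -/
def D16 : Diagram 2 := ⟨![[⟨2, false, true⟩, ⟨3, true, true⟩, ⟨0, true, true⟩, ⟨1, false, true⟩, ⟨4, false, false⟩, ⟨5, true, false⟩, ⟨6, true, false⟩, ⟨7, false, false⟩],
    [⟨2, true, true⟩, ⟨3, false, true⟩, ⟨0, false, true⟩, ⟨1, true, true⟩, ⟨4, true, false⟩, ⟨5, false, false⟩, ⟨6, false, false⟩, ⟨7, true, false⟩]], by decide, by decide⟩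

/-- diagram number 17 of the sequence -/
def D17 : Diagram 2 := ⟨![[⟨2, false, true⟩, ⟨3, true, true⟩, ⟨0, true, true⟩, ⟨5, true, false⟩, ⟨6, true, false⟩, ⟨7, false, false⟩],
    [⟨2, true, true⟩, ⟨3, false, true⟩, ⟨0, false, true⟩, ⟨5, false, false⟩, ⟨6, false, false⟩, ⟨7, true, false⟩]], by decide, by decide⟩

/-- diagram number 18 of the sequence -/
def D18 : Diagram 2 := ⟨![[⟨2, false, true⟩, ⟨3, true, true⟩, ⟨6, true, false⟩, ⟨7, false, false⟩],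
    [⟨2, true, true⟩, ⟨3, false, true⟩, ⟨6, false, false⟩, ⟨7, true, false⟩]], by decide, by decide⟩

/-- diagram number 19 of the sequence -/
def D19 : Diagram 2 := ⟨![[⟨2, false, true⟩, ⟨7, false, false⟩],
    [⟨2, true, true⟩, ⟨7, true, false⟩]], by decide, by decide⟩

/-- diagram number 20 of the sequence -/
def D20 : Diagram 2 := ⟨![[],
    []], by decide, by decide⟩

theorem s1 : Move D1 D0 :=
  Move.r2 _ _ ⟨8, true, false⟩ ⟨9, true, true⟩ rfl rfl (by decide)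
    ⟨1, [⟨0, false, true⟩], [⟨1, true, true⟩, ⟨8, false, false⟩, ⟨9, false, true⟩, ⟨2, true, true⟩, ⟨3, false, true⟩, ⟨4, true, false⟩, ⟨5, false, false⟩, ⟨6, false, false⟩, ⟨7, true, false⟩], rfl⟩
    (Or.inl ⟨1, [⟨0, false, true⟩, ⟨8, true, false⟩, ⟨9, true, true⟩, ⟨1, true, true⟩], [⟨2, true, true⟩, ⟨3, false, true⟩, ⟨4, true, false⟩, ⟨5, false, false⟩, ⟨6, false, false⟩, ⟨7, true, false⟩], rfl⟩) (by unfold Deletes; decide)

theorem s2 : Move D1 D2 :=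
  Move.r3 _ _ ⟨9, true, true⟩ ⟨1, true, true⟩ ⟨2, true, true⟩ true true false
    ![[⟨0, true, true⟩, ⟨1, false, true⟩, ⟨2, false, true⟩, ⟨3, true, true⟩, ⟨4, false, false⟩, ⟨5, true, false⟩, ⟨6, true, false⟩, ⟨7, false, false⟩],
      [⟨0, false, true⟩, ⟨8, true, false⟩, ⟨1, true, true⟩, ⟨9, true, true⟩, ⟨8, false, false⟩, ⟨9, false, true⟩, ⟨2, true, true⟩, ⟨3, false, true⟩, ⟨4, true, false⟩, ⟨5, false, false⟩, ⟨6, false, false⟩, ⟨7, true, false⟩]]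
    ![[⟨0, true, true⟩, ⟨1, false, true⟩, ⟨2, false, true⟩, ⟨3, true, true⟩, ⟨4, false, false⟩, ⟨5, true, false⟩, ⟨6, true, false⟩, ⟨7, false, false⟩],
      [⟨0, false, true⟩, ⟨8, true, false⟩, ⟨1, true, true⟩, ⟨9, true, true⟩, ⟨8, false, false⟩, ⟨2, true, true⟩, ⟨9, false, true⟩, ⟨3, false, true⟩, ⟨4, true, false⟩, ⟨5, false, false⟩, ⟨6, false, false⟩, ⟨7, true, false⟩]] rfl rfl rfl
    ⟨1, [⟨0, false, true⟩, ⟨8, true, false⟩], [⟨8, false, false⟩, ⟨9, false, true⟩, ⟨2, true, true⟩, ⟨3, false, true⟩, ⟨4, true, false⟩, ⟨5, false, false⟩, ⟨6, false, false⟩, ⟨7, true, false⟩], rfl, by decide⟩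
    ⟨1, [⟨0, false, true⟩, ⟨8, true, false⟩, ⟨1, true, true⟩, ⟨9, true, true⟩, ⟨8, false, false⟩], [⟨3, false, true⟩, ⟨4, true, false⟩, ⟨5, false, false⟩, ⟨6, false, false⟩, ⟨7, true, false⟩], rfl, by decide⟩
    ⟨0, [⟨0, true, true⟩], [⟨3, true, true⟩, ⟨4, false, false⟩, ⟨5, true, false⟩, ⟨6, true, false⟩, ⟨7, false, false⟩], rfl, by decide⟩
    (by decide) (by decide)

theorem s3 : SelfCrossingChange D2 D3 :=
  ⟨1, ⟨8, true, false⟩, by decide, by decide, by decide⟩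

theorem s4 : Move D3 D4 :=
  Move.r3 _ _ ⟨2, true, true⟩ ⟨8, true, true⟩ ⟨0, true, true⟩ false false true
    ![[⟨0, true, true⟩, ⟨2, false, true⟩, ⟨1, false, true⟩, ⟨3, true, true⟩, ⟨4, false, false⟩, ⟨5, true, false⟩, ⟨6, true, false⟩, ⟨7, false, false⟩],
      [⟨0, false, true⟩, ⟨8, false, true⟩, ⟨1, true, true⟩, ⟨9, true, true⟩, ⟨2, true, true⟩, ⟨8, true, true⟩, ⟨9, false, true⟩, ⟨3, false, true⟩, ⟨4, true, false⟩, ⟨5, false, false⟩, ⟨6, false, false⟩, ⟨7, true, false⟩]]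
    ![[⟨2, false, true⟩, ⟨0, true, true⟩, ⟨1, false, true⟩, ⟨3, true, true⟩, ⟨4, false, false⟩, ⟨5, true, false⟩, ⟨6, true, false⟩, ⟨7, false, false⟩],
      [⟨0, false, true⟩, ⟨8, false, true⟩, ⟨1, true, true⟩, ⟨9, true, true⟩, ⟨2, true, true⟩, ⟨8, true, true⟩, ⟨9, false, true⟩, ⟨3, false, true⟩, ⟨4, true, false⟩, ⟨5, false, false⟩, ⟨6, false, false⟩, ⟨7, true, false⟩]] rfl rfl rfl
    ⟨1, [⟨0, false, true⟩, ⟨8, false, true⟩, ⟨1, true, true⟩, ⟨9, true, true⟩], [⟨9, false, true⟩, ⟨3, false, true⟩, ⟨4, true, false⟩, ⟨5, false, false⟩, ⟨6, false, false⟩, ⟨7, true, false⟩], rfl, by decide⟩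
    ⟨0, [], [⟨1, false, true⟩, ⟨3, true, true⟩, ⟨4, false, false⟩, ⟨5, true, false⟩, ⟨6, true, false⟩, ⟨7, false, false⟩], rfl, by decide⟩
    ⟨1, [], [⟨1, true, true⟩, ⟨9, true, true⟩, ⟨2, true, true⟩, ⟨8, true, true⟩, ⟨9, false, true⟩, ⟨3, false, true⟩, ⟨4, true, false⟩, ⟨5, false, false⟩, ⟨6, false, false⟩, ⟨7, true, false⟩], rfl, by decide⟩
    (by decide) (by decide)

theorem s5 : Move D4 D5 :=
  Move.r3 _ _ ⟨1, true, true⟩ ⟨9, true, true⟩ ⟨3, true, true⟩ true true false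
    ![[⟨2, false, true⟩, ⟨0, true, true⟩, ⟨1, false, true⟩, ⟨3, true, true⟩, ⟨4, false, false⟩, ⟨5, true, false⟩, ⟨6, true, false⟩, ⟨7, false, false⟩],
      [⟨8, false, true⟩, ⟨0, false, true⟩, ⟨9, true, true⟩, ⟨1, true, true⟩, ⟨2, true, true⟩, ⟨8, true, true⟩, ⟨9, false, true⟩, ⟨3, false, true⟩, ⟨4, true, false⟩, ⟨5, false, false⟩, ⟨6, false, false⟩, ⟨7, true, false⟩]]
    ![[⟨2, false, true⟩, ⟨0, true, true⟩, ⟨3, true, true⟩, ⟨1, false, true⟩, ⟨4, false, false⟩, ⟨5, true, false⟩, ⟨6, true, false⟩, ⟨7, false, false⟩],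
      [⟨8, false, true⟩, ⟨0, false, true⟩, ⟨9, true, true⟩, ⟨1, true, true⟩, ⟨2, true, true⟩, ⟨8, true, true⟩, ⟨9, false, true⟩, ⟨3, false, true⟩, ⟨4, true, false⟩, ⟨5, false, false⟩, ⟨6, false, false⟩, ⟨7, true, false⟩]] rfl rfl rfl
    ⟨1, [⟨8, false, true⟩, ⟨0, false, true⟩], [⟨2, true, true⟩, ⟨8, true, true⟩, ⟨9, false, true⟩, ⟨3, false, true⟩, ⟨4, true, false⟩, ⟨5, false, false⟩, ⟨6, false, false⟩, ⟨7, true, false⟩], rfl, by decide⟩
    ⟨0, [⟨2, false, true⟩, ⟨0, true, true⟩], [⟨4, false, false⟩, ⟨5, true, false⟩, ⟨6, true, false⟩, ⟨7, false, false⟩], rfl, by decide⟩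
    ⟨1, [⟨8, false, true⟩, ⟨0, false, true⟩, ⟨9, true, true⟩, ⟨1, true, true⟩, ⟨2, true, true⟩, ⟨8, true, true⟩], [⟨4, true, false⟩, ⟨5, false, false⟩, ⟨6, false, false⟩, ⟨7, true, false⟩], rfl, by decide⟩
    (by decide) (by decide)

theorem s6 : Move D5 D6 :=
  Move.r3 _ _ ⟨3, true, true⟩ ⟨0, true, true⟩ ⟨8, true, true⟩ false false true
    ![[⟨2, false, true⟩, ⟨3, true, true⟩, ⟨0, true, true⟩, ⟨1, false, true⟩, ⟨4, false, false⟩, ⟨5, true, false⟩, ⟨6, true, false⟩, ⟨7, false, false⟩],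
      [⟨8, false, true⟩, ⟨0, false, true⟩, ⟨9, true, true⟩, ⟨1, true, true⟩, ⟨2, true, true⟩, ⟨8, true, true⟩, ⟨3, false, true⟩, ⟨9, false, true⟩, ⟨4, true, false⟩, ⟨5, false, false⟩, ⟨6, false, false⟩, ⟨7, true, false⟩]]
    ![[⟨2, false, true⟩, ⟨3, true, true⟩, ⟨0, true, true⟩, ⟨1, false, true⟩, ⟨4, false, false⟩, ⟨5, true, false⟩, ⟨6, true, false⟩, ⟨7, false, false⟩],
      [⟨8, false, true⟩, ⟨0, false, true⟩, ⟨9, true, true⟩, ⟨1, true, true⟩, ⟨2, true, true⟩, ⟨3, false, true⟩, ⟨8, true, true⟩, ⟨9, false, true⟩, ⟨4, true, false⟩, ⟨5, false, false⟩, ⟨6, false, false⟩, ⟨7, true, false⟩]] rfl rfl rfl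
    ⟨0, [⟨2, false, true⟩], [⟨1, false, true⟩, ⟨4, false, false⟩, ⟨5, true, false⟩, ⟨6, true, false⟩, ⟨7, false, false⟩], rfl, by decide⟩
    ⟨1, [⟨8, false, true⟩, ⟨0, false, true⟩, ⟨9, true, true⟩, ⟨1, true, true⟩, ⟨2, true, true⟩], [⟨9, false, true⟩, ⟨4, true, false⟩, ⟨5, false, false⟩, ⟨6, false, false⟩, ⟨7, true, false⟩], rfl, by decide⟩
    ⟨1, [], [⟨9, true, true⟩, ⟨1, true, true⟩, ⟨2, true, true⟩, ⟨3, false, true⟩, ⟨8, true, true⟩, ⟨9, false, true⟩, ⟨4, true, false⟩, ⟨5, false, false⟩, ⟨6, false, false⟩, ⟨7, true, false⟩], rfl, by decide⟩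
    (by decide) (by decide)

theorem s7 : SelfCrossingChange D6 D7 :=
  ⟨1, ⟨8, true, true⟩, by decide, by decide, by decide⟩

theorem s8 : Move D7 D8 :=
  Move.r2 _ _ ⟨8, true, false⟩ ⟨9, true, true⟩ rfl rfl (by decide)
    ⟨1, [⟨0, false, true⟩], [⟨1, true, true⟩, ⟨2, true, true⟩, ⟨3, false, true⟩, ⟨8, false, false⟩, ⟨9, false, true⟩, ⟨4, true, false⟩, ⟨5, false, false⟩, ⟨6, false, false⟩, ⟨7, true, false⟩], rfl⟩
    (Or.inl ⟨1, [⟨0, false, true⟩, ⟨8, true, false⟩, ⟨9, true, true⟩, ⟨1, true, true⟩, ⟨2, true, true⟩, ⟨3, false, true⟩], [⟨4, true, false⟩, ⟨5, false, false⟩, ⟨6, false, false⟩, ⟨7, true, false⟩], rfl⟩) (by unfold Deletes; decide)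

theorem s9 : Move D9 D8 :=
  Move.r2 _ _ ⟨10, true, false⟩ ⟨11, true, true⟩ rfl rfl (by decide)
    ⟨0, [⟨2, false, true⟩], [⟨3, true, true⟩, ⟨0, true, true⟩, ⟨1, false, true⟩, ⟨10, false, false⟩, ⟨11, false, true⟩, ⟨4, false, false⟩, ⟨5, true, false⟩, ⟨6, true, false⟩, ⟨7, false, false⟩], rfl⟩
    (Or.inl ⟨0, [⟨2, false, true⟩, ⟨10, true, false⟩, ⟨11, true, true⟩, ⟨3, true, true⟩, ⟨0, true, true⟩, ⟨1, false, true⟩], [⟨4, false, false⟩, ⟨5, true, false⟩, ⟨6, true, false⟩, ⟨7, false, false⟩], rfl⟩) (by unfold Deletes; decide)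

theorem s10 : Move D9 D10 :=
  Move.r3 _ _ ⟨2, true, true⟩ ⟨1, true, true⟩ ⟨10, true, false⟩ false true false
    ![[⟨2, false, true⟩, ⟨10, true, false⟩, ⟨11, true, true⟩, ⟨3, true, true⟩, ⟨0, true, true⟩, ⟨1, false, true⟩, ⟨10, false, false⟩, ⟨11, false, true⟩, ⟨4, false, false⟩, ⟨5, true, false⟩, ⟨6, true, false⟩, ⟨7, false, false⟩],
      [⟨0, false, true⟩, ⟨2, true, true⟩, ⟨1, true, true⟩, ⟨3, false, true⟩, ⟨4, true, false⟩, ⟨5, false, false⟩, ⟨6, false, false⟩, ⟨7, true, false⟩]]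
    ![[⟨10, true, false⟩, ⟨2, false, true⟩, ⟨11, true, true⟩, ⟨3, true, true⟩, ⟨0, true, true⟩, ⟨1, false, true⟩, ⟨10, false, false⟩, ⟨11, false, true⟩, ⟨4, false, false⟩, ⟨5, true, false⟩, ⟨6, true, false⟩, ⟨7, false, false⟩],
      [⟨0, false, true⟩, ⟨2, true, true⟩, ⟨1, true, true⟩, ⟨3, false, true⟩, ⟨4, true, false⟩, ⟨5, false, false⟩, ⟨6, false, false⟩, ⟨7, true, false⟩]] rfl rfl rfl
    ⟨1, [⟨0, false, true⟩], [⟨3, false, true⟩, ⟨4, true, false⟩, ⟨5, false, false⟩, ⟨6, false, false⟩, ⟨7, true, false⟩], rfl, by decide⟩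
    ⟨0, [], [⟨11, true, true⟩, ⟨3, true, true⟩, ⟨0, true, true⟩, ⟨1, false, true⟩, ⟨10, false, false⟩, ⟨11, false, true⟩, ⟨4, false, false⟩, ⟨5, true, false⟩, ⟨6, true, false⟩, ⟨7, false, false⟩], rfl, by decide⟩
    ⟨0, [⟨10, true, false⟩, ⟨2, false, true⟩, ⟨11, true, true⟩, ⟨3, true, true⟩, ⟨0, true, true⟩], [⟨11, false, true⟩, ⟨4, false, false⟩, ⟨5, true, false⟩, ⟨6, true, false⟩, ⟨7, false, false⟩], rfl, by decide⟩
    (by decide) (by decide)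

theorem s11 : Move D10 D11 :=
  Move.r3 _ _ ⟨3, true, true⟩ ⟨11, true, true⟩ ⟨1, true, true⟩ false false true
    ![[⟨10, true, false⟩, ⟨2, false, true⟩, ⟨3, true, true⟩, ⟨11, true, true⟩, ⟨0, true, true⟩, ⟨10, false, false⟩, ⟨1, false, true⟩, ⟨11, false, true⟩, ⟨4, false, false⟩, ⟨5, true, false⟩, ⟨6, true, false⟩, ⟨7, false, false⟩],
      [⟨0, false, true⟩, ⟨2, true, true⟩, ⟨1, true, true⟩, ⟨3, false, true⟩, ⟨4, true, false⟩, ⟨5, false, false⟩, ⟨6, false, false⟩, ⟨7, true, false⟩]]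
    ![[⟨10, true, false⟩, ⟨2, false, true⟩, ⟨3, true, true⟩, ⟨11, true, true⟩, ⟨0, true, true⟩, ⟨10, false, false⟩, ⟨1, false, true⟩, ⟨11, false, true⟩, ⟨4, false, false⟩, ⟨5, true, false⟩, ⟨6, true, false⟩, ⟨7, false, false⟩],
      [⟨0, false, true⟩, ⟨2, true, true⟩, ⟨3, false, true⟩, ⟨1, true, true⟩, ⟨4, true, false⟩, ⟨5, false, false⟩, ⟨6, false, false⟩, ⟨7, true, false⟩]] rfl rfl rfl
    ⟨0, [⟨10, true, false⟩, ⟨2, false, true⟩], [⟨0, true, true⟩, ⟨10, false, false⟩, ⟨1, false, true⟩, ⟨11, false, true⟩, ⟨4, false, false⟩, ⟨5, true, false⟩, ⟨6, true, false⟩, ⟨7, false, false⟩], rfl, by decide⟩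
    ⟨1, [⟨0, false, true⟩, ⟨2, true, true⟩], [⟨4, true, false⟩, ⟨5, false, false⟩, ⟨6, false, false⟩, ⟨7, true, false⟩], rfl, by decide⟩
    ⟨0, [⟨10, true, false⟩, ⟨2, false, true⟩, ⟨3, true, true⟩, ⟨11, true, true⟩, ⟨0, true, true⟩, ⟨10, false, false⟩], [⟨4, false, false⟩, ⟨5, true, false⟩, ⟨6, true, false⟩, ⟨7, false, false⟩], rfl, by decide⟩
    (by decide) (by decide)

theorem s12 : SelfCrossingChange D11 D12 :=
  ⟨0, ⟨10, true, false⟩, by decide, by decide, by decide⟩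

theorem s13 : Move D12 D13 :=
  Move.r3 _ _ ⟨0, true, true⟩ ⟨10, true, true⟩ ⟨2, true, true⟩ true true false
    ![[⟨10, false, true⟩, ⟨2, false, true⟩, ⟨3, true, true⟩, ⟨11, true, true⟩, ⟨10, true, true⟩, ⟨0, true, true⟩, ⟨11, false, true⟩, ⟨1, false, true⟩, ⟨4, false, false⟩, ⟨5, true, false⟩, ⟨6, true, false⟩, ⟨7, false, false⟩],
      [⟨0, false, true⟩, ⟨2, true, true⟩, ⟨3, false, true⟩, ⟨1, true, true⟩, ⟨4, true, false⟩, ⟨5, false, false⟩, ⟨6, false, false⟩, ⟨7, true, false⟩]]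
    ![[⟨10, false, true⟩, ⟨2, false, true⟩, ⟨3, true, true⟩, ⟨11, true, true⟩, ⟨10, true, true⟩, ⟨0, true, true⟩, ⟨11, false, true⟩, ⟨1, false, true⟩, ⟨4, false, false⟩, ⟨5, true, false⟩, ⟨6, true, false⟩, ⟨7, false, false⟩],
      [⟨2, true, true⟩, ⟨0, false, true⟩, ⟨3, false, true⟩, ⟨1, true, true⟩, ⟨4, true, false⟩, ⟨5, false, false⟩, ⟨6, false, false⟩, ⟨7, true, false⟩]] rfl rfl rfl
    ⟨0, [⟨10, false, true⟩, ⟨2, false, true⟩, ⟨3, true, true⟩, ⟨11, true, true⟩], [⟨11, false, true⟩, ⟨1, false, true⟩, ⟨4, false, false⟩, ⟨5, true, false⟩, ⟨6, true, false⟩, ⟨7, false, false⟩], rfl, by decide⟩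
    ⟨1, [], [⟨3, false, true⟩, ⟨1, true, true⟩, ⟨4, true, false⟩, ⟨5, false, false⟩, ⟨6, false, false⟩, ⟨7, true, false⟩], rfl, by decide⟩
    ⟨0, [], [⟨3, true, true⟩, ⟨11, true, true⟩, ⟨10, true, true⟩, ⟨0, true, true⟩, ⟨11, false, true⟩, ⟨1, false, true⟩, ⟨4, false, false⟩, ⟨5, true, false⟩, ⟨6, true, false⟩, ⟨7, false, false⟩], rfl, by decide⟩
    (by decide) (by decide)

theorem s14 : Move D13 D14 :=
  Move.r3 _ _ ⟨11, true, true⟩ ⟨3, true, true⟩ ⟨0, true, true⟩ false false true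
    ![[⟨2, false, true⟩, ⟨10, false, true⟩, ⟨11, true, true⟩, ⟨3, true, true⟩, ⟨10, true, true⟩, ⟨0, true, true⟩, ⟨11, false, true⟩, ⟨1, false, true⟩, ⟨4, false, false⟩, ⟨5, true, false⟩, ⟨6, true, false⟩, ⟨7, false, false⟩],
      [⟨2, true, true⟩, ⟨0, false, true⟩, ⟨3, false, true⟩, ⟨1, true, true⟩, ⟨4, true, false⟩, ⟨5, false, false⟩, ⟨6, false, false⟩, ⟨7, true, false⟩]]
    ![[⟨2, false, true⟩, ⟨10, false, true⟩, ⟨11, true, true⟩, ⟨3, true, true⟩, ⟨10, true, true⟩, ⟨11, false, true⟩, ⟨0, true, true⟩, ⟨1, false, true⟩, ⟨4, false, false⟩, ⟨5, true, false⟩, ⟨6, true, false⟩, ⟨7, false, false⟩],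
      [⟨2, true, true⟩, ⟨0, false, true⟩, ⟨3, false, true⟩, ⟨1, true, true⟩, ⟨4, true, false⟩, ⟨5, false, false⟩, ⟨6, false, false⟩, ⟨7, true, false⟩]] rfl rfl rfl
    ⟨0, [⟨2, false, true⟩, ⟨10, false, true⟩], [⟨10, true, true⟩, ⟨0, true, true⟩, ⟨11, false, true⟩, ⟨1, false, true⟩, ⟨4, false, false⟩, ⟨5, true, false⟩, ⟨6, true, false⟩, ⟨7, false, false⟩], rfl, by decide⟩
    ⟨0, [⟨2, false, true⟩, ⟨10, false, true⟩, ⟨11, true, true⟩, ⟨3, true, true⟩, ⟨10, true, true⟩], [⟨1, false, true⟩, ⟨4, false, false⟩, ⟨5, true, false⟩, ⟨6, true, false⟩, ⟨7, false, false⟩], rfl, by decide⟩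
    ⟨1, [⟨2, true, true⟩], [⟨1, true, true⟩, ⟨4, true, false⟩, ⟨5, false, false⟩, ⟨6, false, false⟩, ⟨7, true, false⟩], rfl, by decide⟩
    (by decide) (by decide)

theorem s15 : SelfCrossingChange D14 D15 :=
  ⟨0, ⟨10, true, true⟩, by decide, by decide, by decide⟩

theorem s16 : Move D15 D16 :=
  Move.r2 _ _ ⟨10, true, false⟩ ⟨11, true, true⟩ rfl rfl (by decide)
    ⟨0, [⟨2, false, true⟩], [⟨3, true, true⟩, ⟨10, false, false⟩, ⟨11, false, true⟩, ⟨0, true, true⟩, ⟨1, false, true⟩, ⟨4, false, false⟩, ⟨5, true, false⟩, ⟨6, true, false⟩, ⟨7, false, false⟩], rfl⟩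
    (Or.inl ⟨0, [⟨2, false, true⟩, ⟨10, true, false⟩, ⟨11, true, true⟩, ⟨3, true, true⟩], [⟨0, true, true⟩, ⟨1, false, true⟩, ⟨4, false, false⟩, ⟨5, true, false⟩, ⟨6, true, false⟩, ⟨7, false, false⟩], rfl⟩) (by unfold Deletes; decide)

theorem s17 : Move D16 D17 :=
  Move.r2 _ _ ⟨1, true, true⟩ ⟨4, true, false⟩ rfl rfl (by decide)
    ⟨1, [⟨2, true, true⟩, ⟨3, false, true⟩, ⟨0, false, true⟩], [⟨5, false, false⟩, ⟨6, false, false⟩, ⟨7, true, false⟩], rfl⟩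
    (Or.inl ⟨0, [⟨2, false, true⟩, ⟨3, true, true⟩, ⟨0, true, true⟩], [⟨5, true, false⟩, ⟨6, true, false⟩, ⟨7, false, false⟩], rfl⟩) (by unfold Deletes; decide)

theorem s18 : Move D17 D18 :=
  Move.r2 _ _ ⟨0, true, true⟩ ⟨5, true, false⟩ rfl rfl (by decide)
    ⟨0, [⟨2, false, true⟩, ⟨3, true, true⟩], [⟨6, true, false⟩, ⟨7, false, false⟩], rfl⟩
    (Or.inl ⟨1, [⟨2, true, true⟩, ⟨3, false, true⟩], [⟨6, false, false⟩, ⟨7, true, false⟩], rfl⟩) (by unfold Deletes; decide)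

theorem s19 : Move D18 D19 :=
  Move.r2 _ _ ⟨3, true, true⟩ ⟨6, true, false⟩ rfl rfl (by decide)
    ⟨0, [⟨2, false, true⟩], [⟨7, false, false⟩], rfl⟩
    (Or.inl ⟨1, [⟨2, true, true⟩], [⟨7, true, false⟩], rfl⟩) (by unfold Deletes; decide)

theorem s20 : Move D19 D20 :=
  Move.r2 _ _ ⟨2, true, true⟩ ⟨7, true, false⟩ rfl rfl (by decide)
    ⟨1, [], [], rfl⟩
    (Or.inl ⟨0, [], [], rfl⟩) (by unfold Deletes; decide)

/-- the class of `D0` is the class of the trivial string link -/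
theorem chain : cls D0 = VSLsc.one 2 := by
  have e1 : cls D0 = cls D1 := (cls_move s1).symm
  have e2 : cls D1 = cls D2 := cls_move s2
  have e3 : cls D2 = cls D3 := cls_sc s3
  have e4 : cls D3 = cls D4 := cls_move s4
  have e5 : cls D4 = cls D5 := cls_move s5
  have e6 : cls D5 = cls D6 := cls_move s6
  have e7 : cls D6 = cls D7 := cls_sc s7
  have e8 : cls D7 = cls D8 := cls_move s8
  have e9 : cls D8 = cls D9 := (cls_move s9).symm
  have e10 : cls D9 = cls D10 := cls_move s10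
  have e11 : cls D10 = cls D11 := cls_move s11
  have e12 : cls D11 = cls D12 := cls_sc s12
  have e13 : cls D12 = cls D13 := cls_move s13
  have e14 : cls D13 = cls D14 := cls_move s14
  have e15 : cls D14 = cls D15 := cls_sc s15
  have e16 : cls D15 = cls D16 := cls_move s16
  have e17 : cls D16 = cls D17 := cls_move s17
  have e18 : cls D17 = cls D18 := cls_move s18
  have e19 : cls D18 = cls D19 := cls_move s19
  have e20 : cls D19 = cls D20 := cls_move s20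
  have e : cls D20 = VSLsc.one 2 :=
    Quot.sound (Or.inl (Move.rename _ _ id Function.injective_id (by decide)))
  rw [e1, e2, e3, e4, e5, e6, e7, e8, e9, e10, e11, e12, e13, e14, e15, e16, e17, e18, e19, e20, e]

end Q168.SC
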