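import Mathlib

/-!
# Virtual and welded string links, pure braids, and self-crossing changes

A virtual string link diagram on `n` strands is recorded by its Gauss diagram: for every strand the
list of its passages through the classical crossings, in the order in which they are met from the
bottom to the top of the strand. A passage consists of the name of the crossing, the information
whether the strand passes over or under, and the sign of the crossing. Virtual crossings are not
recorded. By Goussarov, Polyak and Viro, virtual string link diagrams modulo planar isotopy and the
purely virtual and mixed moves are the same as Gauss diagrams, and the classical Reidemeister moves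
become the moves `Move.r1`, `Move.r2`, `Move.r3` below.
-/

set_option autoImplicit false

namespace Q168.SC

/-- A passage of a strand through a classical crossing: the name of the crossing, whether the strand
is the over-strand there, and the sign of the crossing (`true` for positive). -/
structure Pass where
  name : ℕ
  isOver : Bool
  sign : Bool
  deriving DecidableEq

/-- The other passage through the same crossing. -/
def Pass.other (p : Pass) : Pass := ⟨p.name, !p.isOver, p.sign⟩

/-- A Gauss diagram on `n` strands: every crossing that occurs has exactly one over-passage and
exactly one under-passage, with the same sign. -/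
structure Diagram (n : ℕ) where
  strand : Fin n → List Pass
  nodup : ((List.ofFn strand).flatten.map fun p => (p.name, p.isOver)).Nodup
  paired : ∀ i, ∀ p ∈ strand i, ∃ j, p.other ∈ strand j

variable {n : ℕ}

/-- The diagram without classical crossings, which represents the trivial string link. -/
def Diagram.trivial (n : ℕ) : Diagram n where
  strand := fun _ => []
  nodup := by
    have h : ((List.ofFn fun _ : Fin n => ([] : List Pass)).flatten) = [] := by
      simp
    rw [h]
    simp
  paired := by simp

/-- Some strand passes through `p` and immediately afterwards through `q`. -/
def Diagram.Consecutive (D : Diagram n) (p q : Pass) : Prop :=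
  ∃ i l₁ l₂, D.strand i = l₁ ++ p :: q :: l₂

/-- `D'` arises from `D` by deleting the crossings with names in `s`. -/
def Deletes (s : List ℕ) (D D' : Diagram n) : Prop :=
  ∀ i, D'.strand i = (D.strand i).filter fun p => decide (p.name ∉ s)

/-- `C'` arises from `C` by exchanging the consecutive passages `p`, `q` of some strand; in `C` the
passage `p` comes before `q` if `b` is true, and `q` before `p` if `b` is false. -/
def Exchange (b : Bool) (p q : Pass) (C C' : Fin n → List Pass) : Prop :=
  ∃ i l₁ l₂, C i = l₁ ++ (if b then [p, q] else [q, p]) ++ l₂ ∧
    C' = Function.update C i (l₁ ++ (if b then [q, p] else [p, q]) ++ l₂)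

/-- Reidemeister moves of Gauss diagrams (and changes of the names of the crossings).

* `r1`: a crossing whose two passages are consecutive on a strand is deleted.
* `r2`: two crossings `p`, `q` of opposite signs are deleted, whose over-passages are consecutive and
  whose under-passages are consecutive (in the same or in the opposite order).
* `r3`: there are three crossings with over-passages `a`, `b`, `c`, such that three branches pass
  consecutively through `a`, `b` (top branch), through `a.other`, `c` (middle branch) and through
  `c.other`, `b.other` (bottom branch), in orders given by `t`, `m`, `l`. The two consecutive passages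
  of each of the three branches are exchanged. The three branches bound a triangle if and only if the
  orders and the signs satisfy the last two conditions. -/
inductive Move : Diagram n → Diagram n → Prop
  | rename (D D' : Diagram n) (f : ℕ → ℕ) (hf : Function.Injective f)
      (h : ∀ i, D'.strand i = (D.strand i).map fun p => ⟨f p.name, p.isOver, p.sign⟩) : Move D D'
  | r1 (D D' : Diagram n) (p : Pass) (h : D.Consecutive p p.other)
      (hD : Deletes [p.name] D D') : Move D D'
  | r2 (D D' : Diagram n) (p q : Pass) (hp : p.isOver = true) (hq : q.isOver = true)
      (hs : p.sign ≠ q.sign) (h₁ : D.Consecutive p q)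
      (h₂ : D.Consecutive p.other q.other ∨ D.Consecutive q.other p.other)
      (hD : Deletes [p.name, q.name] D D') : Move D D'
  | r3 (D D' : Diagram n) (a b c : Pass) (t m l : Bool) (C₁ C₂ : Fin n → List Pass)
      (ha : a.isOver = true) (hb : b.isOver = true) (hc : c.isOver = true)
      (h₁ : Exchange t a b D.strand C₁) (h₂ : Exchange m a.other c C₁ C₂)
      (h₃ : Exchange l c.other b.other C₂ D'.strand)
      (hab : m = l ↔ a.sign ≠ b.sign) (hac : t = l ↔ a.sign ≠ c.sign) : Move D D'

/-- Self-crossing change: for a crossing `p` both of whose passages are on the same strand, the
over- and the under-passage are exchanged, and the sign is reversed. -/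
def SelfCrossingChange (D D' : Diagram n) : Prop :=
  ∃ (i : Fin n) (p : Pass), p ∈ D.strand i ∧ p.other ∈ D.strand i ∧
    ∀ j, D'.strand j =
      (D.strand j).map fun q => if q.name = p.name then ⟨q.name, !q.isOver, !q.sign⟩ else q

/-- Overcrossings commute: two consecutive over-passages are exchanged. -/
def OvercrossingsCommute (D D' : Diagram n) : Prop :=
  ∃ p q : Pass, p.isOver = true ∧ q.isOver = true ∧ Exchange true p q D.strand D'.strand

/-- A Gauss diagram is the Gauss diagram of a monotone diagram if its crossings can be ordered by
height: every strand passes through its crossings in this order, and never twice through the same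
crossing. -/
def Diagram.Monotone (D : Diagram n) : Prop :=
  ∃ order : List ℕ, order.Nodup ∧ ∀ i, ((D.strand i).map Pass.name).Sublist order

/-- `vSL_n`: virtual string links. -/
def VSL (n : ℕ) : Type := Quot (Move (n := n))

/-- `wSL_n`: welded string links. -/
def WSL (n : ℕ) : Type := Quot fun D D' : Diagram n => Move D D' ∨ OvercrossingsCommute D D'

/-- `vSL_n^{sc}`: virtual string links up to self-crossing changes. -/
def VSLsc (n : ℕ) : Type := Quot fun D D' : Diagram n => Move D D' ∨ SelfCrossingChange D D'

/-- `wSL_n^{sc}`: welded string links up to self-crossing changes. -/
def WSLsc (n : ℕ) : Type :=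
  Quot fun D D' : Diagram n => Move D D' ∨ OvercrossingsCommute D D' ∨ SelfCrossingChange D D'

/-- `vP_n`: monotone diagrams modulo moves through monotone diagrams. -/
def VP (n : ℕ) : Type := Quot fun D D' : {D : Diagram n // D.Monotone} => Move D.1 D'.1

/-- `wP_n`: monotone diagrams modulo moves through monotone diagrams, where overcrossings also
commute. -/
def WP (n : ℕ) : Type :=
  Quot fun D D' : {D : Diagram n // D.Monotone} => Move D.1 D'.1 ∨ OvercrossingsCommute D.1 D'.1

theorem Diagram.monotone_trivial (n : ℕ) : (Diagram.trivial n).Monotone :=
  ⟨[], List.nodup_nil, fun _ => List.Sublist.refl _⟩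

/-- The trivial element of `vP_n`. -/
def VP.one (n : ℕ) : VP n := Quot.mk _ ⟨Diagram.trivial n, Diagram.monotone_trivial n⟩

/-- The trivial element of `wP_n`. -/
def WP.one (n : ℕ) : WP n := Quot.mk _ ⟨Diagram.trivial n, Diagram.monotone_trivial n⟩

/-- The class of the trivial string link in `vSL_n^{sc}`. -/
def VSLsc.one (n : ℕ) : VSLsc n := Quot.mk _ (Diagram.trivial n)

/-- The class of the trivial string link in `wSL_n^{sc}`. -/
def WSLsc.one (n : ℕ) : WSLsc n := Quot.mk _ (Diagram.trivial n)

/-- The map `π_v` from `vP_n` to `vSL_n^{sc}`; its image is `vP_n^{sc}`. -/
def VP.toSC : VP n → VSLsc n := Quot.map Subtype.val fun _ _ h => Or.inl h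

/-- The map `π_w` from `wP_n` to `wSL_n^{sc}`; its image is `wP_n^{sc}`. -/
def WP.toSC : WP n → WSLsc n :=
  Quot.map Subtype.val fun _ _ h => h.elim Or.inl fun h => Or.inr (Or.inl h)

end Q168.SC
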