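import Pool.Agent.Q168.SC.Defs

/-!
# An invariant of pure virtual and welded braids on two strands

Reading the first strand and recording `x^±1` for an over-passage and `y^±1` for an under-passage
gives an element of the free group; we only need its image in a dihedral group.
-/

set_option autoImplicit false

namespace Q168.SC

/-- images of the two generators -/
def gen (o : Bool) : DihedralGroup 3 := if o then .sr 0 else .r 1

/-- the contribution of a passage -/
def val (p : Pass) : DihedralGroup 3 := if p.sign then gen p.isOver else (gen p.isOver)⁻¹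

/-- the invariant -/
def inv (D : Diagram 2) : DihedralGroup 3 := ((D.strand 0).map val).prod

theorem Diagram.Monotone.names {n : ℕ} {D : Diagram n} (h : D.Monotone) (i : Fin n) :
    ((D.strand i).map Pass.name).Nodup := by
  obtain ⟨o, ho, h⟩ := h
  exact ho.sublist (h i)

theorem Diagram.Monotone.not_other {n : ℕ} {D : Diagram n} (h : D.Monotone) {i : Fin n}
    {p : Pass} (h1 : p ∈ D.strand i) (h2 : p.other ∈ D.strand i) : False := by
  have h3 := List.inj_on_of_nodup_map (h.names i) h1 h2 rfl
  have h4 := congrArg Pass.isOver h3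
  simp [Pass.other] at h4

theorem prod_filter (l l₁ l₂ : List Pass) (u v : Pass) (s : List ℕ) (h : l = l₁ ++ u :: v :: l₂)
    (hn : (l.map Pass.name).Nodup) (hu : u.name ∈ s) (hv : v.name ∈ s)
    (hs : ∀ x ∈ s, x = u.name ∨ x = v.name) (ho : u.isOver = v.isOver) (hsg : u.sign ≠ v.sign) :
    ((l.filter fun p => decide (p.name ∉ s)).map val).prod = (l.map val).prod := by
  subst h
  have hval : val u * val v = 1 := by
    unfold val
    rw [ho]
    cases hu' : u.sign <;> cases hv' : v.sign <;> simp_all
  have hk : ∀ w ∈ l₁ ++ l₂, w.name ∉ s := by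
    intro w hw hws
    simp only [List.map_append, List.map_cons, List.nodup_append, List.nodup_cons,
      List.mem_cons, List.mem_map, not_or, not_exists, not_and] at hn
    obtain ⟨hn1, ⟨hn2, hn3, hn4⟩, hn5⟩ := hn
    rcases List.mem_append.1 hw with hw | hw
    · have h1 := hn5 w.name ⟨w, hw, rfl⟩
      rcases hs _ hws with h2 | h2
      · exact h1 u.name (Or.inl rfl) h2
      · exact h1 v.name (Or.inr (Or.inl rfl)) h2
    · rcases hs _ hws with h2 | h2
      · exact hn2.2 w hw h2
      · exact hn3 w hw h2
  have h1 : (l₁.filter fun p => decide (p.name ∉ s)) = l₁ :=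
    List.filter_eq_self.2 fun w hw => by simpa using hk w (List.mem_append_left _ hw)
  have h2 : (l₂.filter fun p => decide (p.name ∉ s)) = l₂ :=
    List.filter_eq_self.2 fun w hw => by simpa using hk w (List.mem_append_right _ hw)
  rw [List.filter_append, List.filter_cons_of_neg (by simpa using hu),
    List.filter_cons_of_neg (by simpa using hv), h1, h2]
  simp only [List.map_append, List.map_cons, List.prod_append, List.prod_cons]
  rw [← mul_assoc (val u), hval, one_mul]

theorem Exchange.mem {n : ℕ} {b : Bool} {p q : Pass} {C C' : Fin n → List Pass}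
    (h : Exchange b p q C C') (j : Fin n) (r : Pass) : r ∈ C' j ↔ r ∈ C j := by
  obtain ⟨i, l₁, l₂, h1, h2⟩ := h
  subst h2
  by_cases hj : j = i
  · subst hj
    rw [Function.update_self, h1]
    cases b <;> simp <;> tauto
  · rw [Function.update_of_ne hj]

theorem Exchange.pair {n : ℕ} {b : Bool} {p q : Pass} {C C' : Fin n → List Pass}
    (h : Exchange b p q C C') : ∃ i, p ∈ C i ∧ q ∈ C i := by
  obtain ⟨i, l₁, l₂, h1, -⟩ := h
  refine ⟨i, ?_, ?_⟩ <;> rw [h1] <;> cases b <;> simp

theorem inv_move {D D' : Diagram 2} (hD : D.Monotone) (h : Move D D') : inv D = inv D' := by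
  cases h with
  | rename f hf h =>
    unfold inv
    rw [h 0, List.map_map]
    rfl
  | r1 p h hd =>
    obtain ⟨i, l₁, l₂, h⟩ := h
    exact (hD.not_other (i := i) (p := p) (by rw [h]; simp) (by rw [h]; simp)).elim
  | r2 p q hp hq hs h₁ h₂ hd =>
    obtain ⟨i, l₁, l₂, h₁⟩ := h₁
    have hpi : p ∈ D.strand i := by rw [h₁]; simp
    have hqi : q ∈ D.strand i := by rw [h₁]; simp
    have hn := hD.names 0
    have key : ∀ j, p.other ∈ D.strand j → j ≠ i := by
      rintro j hj rfl
      exact hD.not_other hpi hj
    unfold inv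
    rw [hd 0]
    symm
    by_cases hi : i = 0
    · subst hi
      exact prod_filter _ _ _ p q _ h₁ hn (by simp) (by simp) (by simp) (by rw [hp, hq]) hs
    · rcases h₂ with ⟨j, m₁, m₂, h₂⟩ | ⟨j, m₁, m₂, h₂⟩
      · have hj := key j (by rw [h₂]; simp)
        have hj0 : j = 0 := by omega
        subst hj0
        exact prod_filter _ _ _ p.other q.other _ h₂ hn (by simp [Pass.other])
          (by simp [Pass.other]) (by simp [Pass.other]) (by simp [Pass.other, hp, hq])
          (by simpa [Pass.other] using hs)
      · have hj := key j (by rw [h₂]; simp)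
        have hj0 : j = 0 := by omega
        subst hj0
        exact prod_filter _ _ _ q.other p.other _ h₂ hn (by simp [Pass.other])
          (by simp [Pass.other]) (by simp [Pass.other]) (by simp [Pass.other, hp, hq])
          (by simpa [Pass.other] using hs.symm)
  | r3 a b c t m l C₁ C₂ ha hb hc h₁ h₂ h₃ hab hac =>
    obtain ⟨i, hi1, hi2⟩ := h₁.pair
    obtain ⟨j, hj1, hj2⟩ := h₂.pair
    obtain ⟨k, hk1, hk2⟩ := h₃.pair
    rw [h₁.mem] at hj1 hj2
    rw [h₂.mem, h₁.mem] at hk1 hk2
    exfalso
    have h4 : i ≠ j := by rintro rfl; exact hD.not_other hi1 hj1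
    have h5 : j ≠ k := by rintro rfl; exact hD.not_other hj2 hk1
    have h6 : i ≠ k := by rintro rfl; exact hD.not_other hi2 hk2
    omega

theorem sublist_pair {l : List ℕ} {m k : ℕ} (hm : m ∈ l) (hk : k ∈ l) (h : m ≠ k) :
    [m, k].Sublist l ∨ [k, m].Sublist l := by
  obtain ⟨a, b, rfl⟩ := List.append_of_mem hm
  rcases List.mem_append.1 hk with hk | hk
  · right
    exact (List.singleton_sublist.2 hk).append (List.singleton_sublist.2 (List.mem_cons_self))
  · left
    have h1 : k ∈ b := by
      rcases List.mem_cons.1 hk with h2 | h2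
      · exact absurd h2.symm h
      · exact h2
    exact (List.Sublist.cons_cons m (List.singleton_sublist.2 h1)).trans
      (List.sublist_append_right a _)

theorem not_both {m k : ℕ} : ∀ {l : List ℕ}, l.Nodup → [m, k].Sublist l → ¬ [k, m].Sublist l := by
  intro l
  induction l with
  | nil => intro _ h; simp at h
  | cons a t ih =>
    intro hn h1 h2
    rw [List.nodup_cons] at hn
    rw [List.cons_sublist_cons'] at h1 h2
    rcases h1 with h1 | ⟨rfl, h1⟩ <;> rcases h2 with h2 | ⟨h3, h2⟩
    · exact ih hn.2 h1 h2
    · subst h3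
      exact hn.1 (h1.subset (by simp))
    · exact hn.1 (h2.subset (by simp))
    · subst h3
      exact hn.1 (h1.subset (by simp))

theorem no_oc {D D' : Diagram 2} (hD : D.Monotone) (hD' : D'.Monotone) :
    ¬ OvercrossingsCommute D D' := by
  rintro ⟨p, q, hp, hq, i, l₁, l₂, h1, h2⟩
  simp only [if_true] at h1 h2
  have hpi : p ∈ D.strand i := by rw [h1]; simp
  have hqi : q ∈ D.strand i := by rw [h1]; simp
  have hpq : p.name ≠ q.name := by
    have h3 := hD.names i
    rw [h1] at h3
    simp [List.nodup_append] at h3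
    tauto
  obtain ⟨j, hj⟩ := D.paired i p hpi
  obtain ⟨k, hk⟩ := D.paired i q hqi
  have hji : j ≠ i := by rintro rfl; exact hD.not_other hpi hj
  have hki : k ≠ i := by rintro rfl; exact hD.not_other hqi hk
  have hkj : k = j := by omega
  subst hkj
  have h3 : D'.strand k = D.strand k := by rw [h2, Function.update_of_ne hki]
  obtain ⟨o, ho, hs⟩ := hD
  obtain ⟨o', ho', hs'⟩ := hD'
  have h4 : [p.name, q.name].Sublist o := by
    refine List.Sublist.trans ?_ (hs i)
    rw [h1]
    have : [p.name, q.name] = ([p, q].map Pass.name) := rfl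
    rw [this]
    exact List.Sublist.map _ ((List.sublist_append_right l₁ [p, q]).trans
      (List.sublist_append_left _ l₂))
  have h5 : [q.name, p.name].Sublist o' := by
    refine List.Sublist.trans ?_ (hs' i)
    rw [h2, Function.update_self]
    have : [q.name, p.name] = ([q, p].map Pass.name) := rfl
    rw [this]
    exact List.Sublist.map _ ((List.sublist_append_right l₁ [q, p]).trans
      (List.sublist_append_left _ l₂))
  have h6 : p.name ∈ (D.strand k).map Pass.name := List.mem_map.2 ⟨p.other, hj, rfl⟩
  have h7 : q.name ∈ (D.strand k).map Pass.name := List.mem_map.2 ⟨q.other, hk, rfl⟩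
  rcases sublist_pair h6 h7 hpq with h8 | h8
  · exact not_both ho' (h8.trans (h3 ▸ hs' k)) h5
  · exact not_both ho h4 (h8.trans (hs k))

/-- the invariant on `vP_2` -/
def VP.inv : VP 2 → DihedralGroup 3 :=
  Quot.lift (fun D => Q168.SC.inv D.1) fun D _ h => inv_move D.2 h

/-- the invariant on `wP_2` -/
def WP.inv : WP 2 → DihedralGroup 3 :=
  Quot.lift (fun D => Q168.SC.inv D.1) fun D D' h =>
    h.elim (fun h => inv_move D.2 h) fun h => (no_oc D.2 D'.2 h).elim

end Q168.SC
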